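import Pool.Agent.W206.YP.Stm
import Pool.Agent.W206.CT.CO

set_option autoImplicit false

namespace Pool.Agent.W162.YP.GT

open MvPolynomial Pool.Agent.W206.CT Pool.Agent.W206.YP

/-- `FinC` with the explicit compatibility of the two algebra structures -/
def FinC2 (G : Type) [Fintype G] (κ : G → Bool) : Prop :=
  ∃ S : Finset (Ideal (MvPolynomial (G × Fin 3) ℂ)),
    (∀ p ∈ S, ∃ (L : Type) (_ : Field L) (_ : Algebra ℂ L) (_ : Algebra Qb L),
      (∀ c : Qb, algebraMap Qb L c = algebraMap ℂ L (c : ℂ)) ∧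
      ∃ ω : G × Fin 3 → L, AtypPt ℂ κ ω ∧
      p = RingHom.ker (aeval ω : MvPolynomial (G × Fin 3) ℂ →ₐ[ℂ] L)) ∧
    ∀ (L : Type) [Field L] [Algebra ℂ L] [Algebra Qb L],
      (∀ c : Qb, algebraMap Qb L c = algebraMap ℂ L (c : ℂ)) →
      ∀ ω : G × Fin 3 → L, AtypPt ℂ κ ω →
      ∃ p ∈ S, p ≤ RingHom.ker (aeval ω : MvPolynomial (G × Fin 3) ℂ →ₐ[ℂ] L)

/-- transfer of relations -/
theorem rel_aux {σ L : Type} [Field L] [Algebra ℂ L] [Algebra Qb L]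
    (hc : ∀ c : Qb, algebraMap Qb L c = algebraMap ℂ L (c : ℂ))
    (ω : σ → L) (x y : σ) (F : MvPolynomial (Fin 2) Qb) :
    (aeval ω : MvPolynomial σ ℂ →ₐ[ℂ] L)
      (aeval ![(X x : MvPolynomial σ ℂ), X y] F : MvPolynomial σ ℂ) = aeval ![ω x, ω y] F := by
  induction F using MvPolynomial.induction_on with
  | C c =>
    rw [aeval_C, aeval_C, hc]
    have : (algebraMap Qb (MvPolynomial σ ℂ)) c = C (c : ℂ) := rfl
    rw [this, aeval_C]
  | add p q hp hq => rw [map_add, map_add, map_add, hp, hq]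
  | mul_X p i hp =>
    rw [map_mul, map_mul, map_mul, hp, aeval_X, aeval_X]
    congr 1
    fin_cases i <;> simp

theorem rel_c {σ L : Type} [Field L] [Algebra ℂ L] [Algebra Qb L]
    (hc : ∀ c : Qb, algebraMap Qb L c = algebraMap ℂ L (c : ℂ))
    (ω : σ → L) (x : σ) (c : Qb) :
    (aeval ω : MvPolynomial σ ℂ →ₐ[ℂ] L) (X x - C (c : ℂ)) = ω x - algebraMap Qb L c := by
  rw [map_sub, aeval_X, aeval_C, hc]

theorem rel_iff {σ L : Type} [Field L] [Algebra ℂ L] [Algebra Qb L]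
    (hc : ∀ c : Qb, algebraMap Qb L c = algebraMap ℂ L (c : ℂ))
    (ω : σ → L) (T : Finset σ) :
    RelI (RingHom.ker (aeval ω : MvPolynomial σ ℂ →ₐ[ℂ] L)) T ↔ RelT ω T := by
  unfold RelI RelT
  refine forall₂_congr fun t _ => or_congr ?_ ?_
  · refine exists_congr fun c => and_congr_right fun _ => ?_
    rw [RingHom.mem_ker, rel_c hc, sub_eq_zero]
  · refine exists_congr fun u => and_congr_right fun _ => exists_congr fun F =>
      and_congr_right fun _ => ?_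
    rw [RingHom.mem_ker, rel_aux hc]

theorem gate_iff {G L : Type} [Field L] [Algebra ℂ L] (κ : G → Bool) (ω : G × Fin 3 → L) :
    gI κ ≤ RingHom.ker (aeval ω : MvPolynomial (G × Fin 3) ℂ →ₐ[ℂ] L) ↔ Gate κ ω := by
  unfold gI Gate
  rw [Ideal.span_le, Set.range_subset_iff]
  refine forall_congr' fun g => ?_
  rw [SetLike.mem_coe, RingHom.mem_ker, map_sub, sub_eq_zero]
  by_cases h : κ g = true <;> simp [h]

theorem tr_dim {σ L : Type} [Fintype σ] [Field L] [Algebra ℂ L] (ω : σ → L) (m : ℕ)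
    (h : TrGe ℂ ω m) : DimGe (RingHom.ker (aeval ω : MvPolynomial σ ℂ →ₐ[ℂ] L)) m := by
  obtain ⟨I, hI, -, hm⟩ := t_co ℂ L σ ω
  have hm' := (hm m).mp h
  have e : Fin m ↪ I := (Fin.castLEEmb (by simpa using hm')).trans I.equivFin.symm.toEmbedding
  refine ⟨fun i => Ideal.Quotient.mk _ (X (e i : σ)), ?_⟩
  refine AlgebraicIndependent.of_comp
    (Ideal.kerLiftAlg (aeval ω : MvPolynomial σ ℂ →ₐ[ℂ] L)) ?_
  have h2 := hI.comp e e.injective
  have h3 : (Ideal.kerLiftAlg (aeval ω : MvPolynomial σ ℂ →ₐ[ℂ] L)) ∘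
      (fun i => Ideal.Quotient.mk _ (X (e i : σ))) = (fun i : I => ω i) ∘ e := by
    funext i
    show (aeval ω : MvPolynomial σ ℂ →ₐ[ℂ] L) (X (e i : σ)) = _
    rw [aeval_X]; rfl
  rw [h3]
  exact h2

theorem aeval_frac {σ : Type} (Q : Ideal (MvPolynomial σ ℂ)) [Q.IsPrime] (f : MvPolynomial σ ℂ) :
    (aeval (fun i => algebraMap (MvPolynomial σ ℂ ⧸ Q) (FractionRing (MvPolynomial σ ℂ ⧸ Q))
      (Ideal.Quotient.mk Q (X i))) : MvPolynomial σ ℂ →ₐ[ℂ] _) f =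
    algebraMap (MvPolynomial σ ℂ ⧸ Q) (FractionRing (MvPolynomial σ ℂ ⧸ Q))
      (Ideal.Quotient.mk Q f) := by
  have h : (aeval (fun i => algebraMap (MvPolynomial σ ℂ ⧸ Q) (FractionRing (MvPolynomial σ ℂ ⧸ Q))
      (Ideal.Quotient.mk Q (X i))) : MvPolynomial σ ℂ →ₐ[ℂ] _) =
      (IsScalarTower.toAlgHom ℂ (MvPolynomial σ ℂ ⧸ Q)
        (FractionRing (MvPolynomial σ ℂ ⧸ Q))).comp (Ideal.Quotient.mkₐ ℂ Q) := by
    apply MvPolynomial.algHom_ext
    intro i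
    rw [aeval_X]
    rfl
  rw [h]
  rfl

theorem ker_frac {σ : Type} (Q : Ideal (MvPolynomial σ ℂ)) [Q.IsPrime] :
    RingHom.ker (aeval (fun i => algebraMap (MvPolynomial σ ℂ ⧸ Q)
      (FractionRing (MvPolynomial σ ℂ ⧸ Q)) (Ideal.Quotient.mk Q (X i))) :
        MvPolynomial σ ℂ →ₐ[ℂ] _) = Q := by
  ext f
  rw [RingHom.mem_ker, aeval_frac, FaithfulSMul.algebraMap_eq_zero_iff,
    Ideal.Quotient.eq_zero_iff_mem]

theorem dim_tr {σ : Type} (Q : Ideal (MvPolynomial σ ℂ)) [Q.IsPrime] (m : ℕ) (h : DimGe Q m) :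
    TrGe ℂ (fun i => algebraMap (MvPolynomial σ ℂ ⧸ Q)
      (FractionRing (MvPolynomial σ ℂ ⧸ Q)) (Ideal.Quotient.mk Q (X i))) m := by
  obtain ⟨y, hy⟩ := h
  refine ⟨fun i => algebraMap _ _ (y i), ?_, fun i => ?_⟩
  · exact hy.map' (f := IsScalarTower.toAlgHom ℂ (MvPolynomial σ ℂ ⧸ Q)
      (FractionRing (MvPolynomial σ ℂ ⧸ Q)))
      (FaithfulSMul.algebraMap_injective _ _)
  · obtain ⟨f, hf⟩ := Ideal.Quotient.mk_surjective (y i)
    dsimp only
    rw [← hf, ← aeval_frac]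
    apply IntermediateField.algebra_adjoin_le_adjoin
    rw [Algebra.adjoin_range_eq_range_aeval]
    exact ⟨f, rfl⟩

theorem main (hGP : S_GP) : ∀ (G : Type) [Fintype G] (κ : G → Bool), FinI (gI κ) →
    FinC2 G κ := by
  intro G _ κ ⟨S, hS1, hS2⟩
  have hdim : ∀ m, DimGe (gI κ) m ↔ m ≤ 2 * Fintype.card G := (hGP G κ).2.2
  refine ⟨S, ?_, ?_⟩
  · intro Q hQ
    obtain ⟨hprime, hle, m, T, hm, hT, hn⟩ := hS1 Q hQ
    let L := FractionRing (MvPolynomial (G × Fin 3) ℂ ⧸ Q)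
    let iA : Algebra Qb L := ((algebraMap ℂ L).comp (algebraMap Qb ℂ)).toAlgebra
    have hc : ∀ c : Qb, algebraMap Qb L c = algebraMap ℂ L (c : ℂ) := fun c => rfl
    have hker := ker_frac Q
    refine ⟨L, inferInstance, inferInstance, iA, hc,
      (fun i => algebraMap (MvPolynomial (G × Fin 3) ℂ ⧸ Q)
      (FractionRing (MvPolynomial (G × Fin 3) ℂ ⧸ Q)) (Ideal.Quotient.mk Q (X i))),
      ⟨?_, m, T, dim_tr Q m hm, ?_, ?_⟩, hker.symm⟩
    · rw [← gate_iff, hker]; exact hle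
    · rw [← rel_iff hc, hker]; exact hT
    · rw [hdim] at hn; omega
  · intro L _ _ _ hc ω hω
    obtain ⟨hg, m, T, hm, hT, hlt⟩ := hω
    apply hS2
    refine ⟨RingHom.ker_isPrime _, (gate_iff κ ω).mpr hg, m, T, tr_dim ω m hm,
      (rel_iff hc ω T).mpr hT, ?_⟩
    rw [hdim]; omega

end Pool.Agent.W162.YP.GT
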