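import Pool.Agent.W162.YP.GT
import Pool.Agent.W358.YP.FQ

set_option autoImplicit false

namespace Pool.Agent.W162.YP.GT2

open Pool.Agent.W206.YP

theorem toC' {G : Type} [Fintype G] {κ : G → Bool} (h : Pool.Agent.W162.YP.GT.FinC2 G κ) :
    Pool.Agent.W358.YP.FQ.FinC' G κ := by
  obtain ⟨S, h1, h2⟩ := h
  refine ⟨S, fun p hp => ?_, fun L _ _ _ hc ω hω => h2 L hc ω hω⟩
  obtain ⟨L, a, b, c, hc, ω, hω⟩ := h1 p hp
  exact ⟨L, a, b, c, hc, ω, hω⟩

/-- `S_GP` and the finiteness for the ideal give the finiteness over the algebraic numbers. -/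
theorem main (hGP : S_GP) (G : Type) [Fintype G] (κ : G → Bool) (h : FinI (gI κ)) : FinQ G κ :=
  Pool.Agent.W358.YP.FQ.main G κ (toC' (Pool.Agent.W162.YP.GT.main hGP G κ h))

end Pool.Agent.W162.YP.GT2
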